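import Pool.Agent.H28.LF.F1

/-!
# MP_c59857_nt, project LF: row YST
-/

set_option autoImplicit false

open MeasureTheory ProbabilityTheory Filter Topology Finset
open scoped Nat ENNReal

namespace Pool.Agent.H38.LF

open Pool.Agent.H28.LF
open Pool.Agent.H24.MR (lam FinAddInv)
open Pool.Agent.H28.MCL (ldB Aw)

theorem shX_pt {τ : ℕ → ℕ → Bool} (n : ℕ) : shX (ptS (lX τ) n) = ptS (lX τ) (n + 1) := by
  funext t
  show ptS (lX τ) n (t + 1) = ptS (lX τ) (n + 1) t
  unfold ptS
  congr 2
  push_cast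
  ring

theorem shY_pt {τ : ℕ → ℕ → Bool} (n : ℕ) : shY (ptS (lY τ) n) = ptS (lY τ) (n + 1) := by
  funext t
  show ptS (lY τ) n (t + 1) = ptS (lY τ) (n + 1) t
  unfold ptS
  congr 2
  push_cast
  ring

theorem shY_iter {τ : ℕ → ℕ → Bool} (d n : ℕ) :
    shY^[d] (ptS (lY τ) n) = ptS (lY τ) (n + d) := by
  induction d generalizing n with
  | zero => rfl
  | succ d ih =>
    rw [Function.iterate_succ_apply, shY_pt, ih]
    congr 1
    ring

theorem xi_pt {τ : ℕ → ℕ → Bool} (p n : ℕ) : xiY p (ptS (lY τ) n) = ptS (lX τ) (n / p) := by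
  show (lY τ ((n : ℤ) + 0).toNat).2.2 p = _
  simp [lY]

theorem fl_pt {τ : ℕ → ℕ → Bool} (p n : ℕ) : ptS (lY τ) n ∈ flY p ↔ p ∣ n := by
  show (lY τ ((n : ℤ) + 0).toNat).2.1 p = true ↔ _
  simp [lY]

theorem shY_cont : Continuous (shY : Yi → Yi) := (shS LY).continuous

theorem shX_cont : Continuous (shX : Xi → Xi) := (shS LX).continuous

theorem xi_cont (p : ℕ) : Continuous (xiY p) := by
  unfold xiY
  fun_prop

theorem fl_clopen (p : ℕ) : IsClopen (flY p) := by
  have h : Continuous (fun ω : Yi => (ω 0).2.1 p) := by fun_prop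
  have : flY p = (fun ω : Yi => (ω 0).2.1 p) ⁻¹' {true} := rfl
  rw [this]
  exact (isClopen_discrete _).preimage h

theorem shY_fl_clopen (i d : ℕ) : IsClopen {ω : Yi | shY^[i] ω ∈ flY d} :=
  (fl_clopen d).preimage (shY_cont.iterate i)

/-- a closed property of all points holds almost everywhere -/
theorem ae_of_closed (hL : Pool.Agent.H28.MCL.T_LDB) {U : Ultrafilter ℕ} {x y : ℕ → ℕ}
    {τ : ℕ → ℕ → Bool} {P : Measure Yi} (hA : Aw U x y) (hP : LwY U x y τ P) {C : Set Yi}
    (hC : IsClosed C) (h : ∀ n, ptS (lY τ) n ∈ C) : ∀ᵐ ω ∂P, ω ∈ C := by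
  have := hP.prob
  have h1 := hP.cls C hC
  have h2 : {n | ptS (lY τ) n ∈ C} = Set.univ := Set.eq_univ_of_forall h
  have h3 : ldB U x y Set.univ = 1 := (hL U x y hA).1.univ
  rw [h2, h3] at h1
  have h4 : P.real C = 1 := le_antisymm measureReal_le_one h1
  have hm : MeasurableSet C := hC.measurableSet
  have h5 : P C = 1 := by
    rw [← ENNReal.toReal_eq_one_iff]; exact h4
  rw [← prob_compl_eq_zero_iff hm] at h5
  exact h5

theorem pf_YST (hL : Pool.Agent.H28.MCL.T_LDB) : T_YST := by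
  intro U x y τ P hA hP
  refine ⟨?_, ?_, ?_⟩
  · intro p hp
    have hC : IsClosed {ω : Yi | xiY p (shY ω) = xiY p ω ∨ xiY p (shY ω) = shX (xiY p ω)} :=
      (isClosed_eq ((xi_cont p).comp shY_cont) (xi_cont p)).union
        (isClosed_eq ((xi_cont p).comp shY_cont) (shX_cont.comp (xi_cont p)))
    refine ae_of_closed hL hA hP hC ?_
    intro n
    show xiY p (shY (ptS (lY τ) n)) = xiY p (ptS (lY τ) n) ∨
      xiY p (shY (ptS (lY τ) n)) = shX (xiY p (ptS (lY τ) n))
    rw [shY_pt, xi_pt, xi_pt, shX_pt]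
    by_cases hd : p ∣ n + 1
    · right
      rw [Nat.succ_div_of_dvd hd]
    · left
      rw [Nat.succ_div_of_not_dvd hd]
  · intro p hp
    have hC : IsClosed {ω : Yi | ω ∈ flY p → xiY p (shY^[p] ω) = shX (xiY p ω)} := by
      have : {ω : Yi | ω ∈ flY p → xiY p (shY^[p] ω) = shX (xiY p ω)} =
          (flY p)ᶜ ∪ {ω | xiY p (shY^[p] ω) = shX (xiY p ω)} := by
        ext ω
        simp only [Set.mem_ofPred_eq, Set.mem_union, Set.mem_compl_iff]
        tauto
      rw [this]
      exact (fl_clopen p).compl.isClosed.union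
        (isClosed_eq ((xi_cont p).comp (shY_cont.iterate p)) (shX_cont.comp (xi_cont p)))
    refine ae_of_closed hL hA hP hC ?_
    intro n
    show ptS (lY τ) n ∈ flY p → xiY p (shY^[p] (ptS (lY τ) n)) = shX (xiY p (ptS (lY τ) n))
    intro hn
    rw [shY_iter, xi_pt, xi_pt, shX_pt, Nat.add_div_right _ hp.pos]
  · intro d hd
    have hC : IsClosed {ω : Yi | (ω ∈ flY d ↔ shY^[d] ω ∈ flY d) ∧
        ∃! i : ℕ, i < d ∧ shY^[i] ω ∈ flY d} := by
      have e : {ω : Yi | (ω ∈ flY d ↔ shY^[d] ω ∈ flY d) ∧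
          ∃! i : ℕ, i < d ∧ shY^[i] ω ∈ flY d} =
          ((flY d ∩ {ω | shY^[d] ω ∈ flY d}) ∪ ((flY d)ᶜ ∩ {ω | shY^[d] ω ∈ flY d}ᶜ)) ∩
          ⋃ i ∈ Finset.range d, ({ω : Yi | shY^[i] ω ∈ flY d} ∩
            ⋂ j ∈ (Finset.range d).filter (· ≠ i), {ω : Yi | shY^[j] ω ∈ flY d}ᶜ) := by
        ext ω
        simp only [Set.mem_ofPred_eq, Set.mem_inter_iff, Set.mem_union, Set.mem_compl_iff,
          Set.mem_iUnion, Set.mem_iInter, Finset.mem_range, Finset.mem_filter, exists_prop]
        constructor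
        · rintro ⟨h1, i, ⟨h2, h3⟩, h4⟩
          refine ⟨?_, i, h2, h3, ?_⟩
          · tauto
          · rintro j ⟨hj, hne⟩ hjf
            exact hne (h4 j ⟨hj, hjf⟩)
        · rintro ⟨h1, i, h2, h3, h4⟩
          refine ⟨?_, i, ⟨h2, h3⟩, ?_⟩
          · tauto
          · rintro j ⟨hj, hjf⟩
            by_contra hne
            exact h4 j ⟨hj, hne⟩ hjf
      rw [e]
      refine IsClosed.inter ?_ ?_
      · exact (((fl_clopen d).inter (shY_fl_clopen d d)).union
          ((fl_clopen d).compl.inter (shY_fl_clopen d d).compl)).isClosed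
      · refine isClosed_biUnion_finset fun i _ => ?_
        exact (shY_fl_clopen i d).isClosed.inter
          (isClosed_biInter fun j _ => (shY_fl_clopen j d).compl.isClosed)
    refine ae_of_closed hL hA hP hC ?_
    intro n
    show (ptS (lY τ) n ∈ flY d ↔ shY^[d] (ptS (lY τ) n) ∈ flY d) ∧
      ∃! i : ℕ, i < d ∧ shY^[i] (ptS (lY τ) n) ∈ flY d
    constructor
    · rw [shY_iter, fl_pt, fl_pt]
      exact (Nat.dvd_add_self_right).symm
    · have key : ∀ i, shY^[i] (ptS (lY τ) n) ∈ flY d ↔ d ∣ n + i := by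
        intro i
        rw [shY_iter, fl_pt]
      simp only [key]
      have hmod : n % d < d := Nat.mod_lt _ hd
      refine ⟨(d - n % d) % d, ⟨Nat.mod_lt _ hd, ?_⟩, ?_⟩
      · rw [Nat.dvd_iff_mod_eq_zero, Nat.add_mod, Nat.mod_mod]
        by_cases h0 : n % d = 0
        · rw [h0]; simp
        · have : (d - n % d) % d = d - n % d := Nat.mod_eq_of_lt (by omega)
          rw [this]
          have : n % d + (d - n % d) = d := by omega
          rw [this]; simp
      · rintro j ⟨hj, hjd⟩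
        have h1 : (n % d + j) % d = 0 := by
          rw [Nat.dvd_iff_mod_eq_zero, Nat.add_mod, Nat.mod_eq_of_lt hj] at hjd
          exact hjd
        have h2 : d ∣ n % d + j := Nat.dvd_of_mod_eq_zero h1
        obtain ⟨c, hc⟩ := h2
        have hc2 : c = 0 ∨ c = 1 := by
          rcases c with _ | _ | c
          · exact Or.inl rfl
          · exact Or.inr rfl
          · exfalso
            have : d * (c + 1 + 1) = d * c + 2 * d := by ring
            have h5 : n % d + j < 2 * d := by omega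
            have h6 : 2 * d ≤ d * (c + 1 + 1) := by rw [this]; exact Nat.le_add_left _ _
            omega
        rcases hc2 with rfl | rfl
        · have h3 : n % d = 0 := by omega
          have h4 : j = 0 := by omega
          rw [h3, h4]; simp
        · have h3 : j = d - n % d := by omega
          have h6 : (d - n % d) % d = d - n % d := Nat.mod_eq_of_lt (by omega)
          rw [h6]
          exact h3

end Pool.Agent.H38.LF
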